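import Pool.Agent.H41.Op4

set_option autoImplicit false

open Pool.Agent.H41.Op Polynomial Filter Topology

theorem Pool.Agent.Results.MP_48c50a_an.No.result :
    ∃ ω : ℕ → ℝ, ω 0 = 1 ∧ (∀ k, 0 < ω k) ∧
      Tendsto (fun k => ω k / ω (k + 1)) atTop (𝓝 1) ∧ ∃ f : ℂ[X], IsCyclic ω f ∧
      ∃ ζ : ℂ, ‖ζ‖ = 1 ∧ ∀ ρ θ₁ θ₂ : ℝ, 0 < ρ → θ₁ < θ₂ → ∃ (n : ℕ) (q : ℂ[X]), IsOPA ω f n q ∧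
        ∃ r θ : ℝ, 0 < r ∧ r < ρ ∧ θ₁ < θ ∧ θ < θ₂ ∧
          q.eval (ζ + r * Complex.exp (θ * Complex.I)) = 0 :=
  main
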